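import Pool.Agent.Helper37.PD.BaseMain

/-!
# Double covers over a potentially dense base

Let `A ⊆ A'` be algebras over a number field `K`, `A'` a domain such that `Spec A'` is potentially
dense, and let `F` be a polynomial over `A` in `x_1, ..., x_n` of degree at most four in each
variable. Suppose that over the fraction field of `A'` there is a rational curve
`y ↦ c(y) / e(y)` (`c_j, e` polynomials in `y` over `A'`, `e(0) ≠ 0`) with
`F(c(y) / e(y)) = y h(y) ^ 2`, `h ≠ 0`, such that `F` vanishes at `c(0) / e(0)` but none of its
partial derivatives does. Then every irreducible scheme over `K` that is birational over `K` to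
the double cover `w ^ 2 = F(x_1, ..., x_n)` over `Spec A` is potentially dense.
-/

namespace Pool.Agent.Results.MP_9410e4_ag.DenseBaseFamily

open AlgebraicGeometry CategoryTheory MvPolynomial Pool.Agent.Helper15 Pool.Agent.Helper37.PD

universe u

theorem result (K : Type u) [Field K] [NumberField K] (A A' : Type u) [CommRing A]
    [CommRing A'] [IsDomain A'] [Algebra K A] [Algebra K A'] [Algebra A A']
    [IsScalarTower K A A'] (hinj : Function.Injective (algebraMap A A'))
    (hA' : PotentiallyDense K (Spec (CommRingCat.of A'))
      (Spec.map (CommRingCat.ofHom (algebraMap K A'))))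
    (n : ℕ) (F : MvPolynomial (Fin n) A) (hdeg : ∀ j, F.degreeOf j ≤ 4)
    (c : Fin n → Polynomial A') (e : Polynomial A') (he : e.coeff 0 ≠ 0)
    (h : FractionRing (Polynomial A')) (hh : h ≠ 0)
    (hcurve : aeval (fun j => algebraMap (Polynomial A') (FractionRing (Polynomial A')) (c j)
        / algebraMap (Polynomial A') (FractionRing (Polynomial A')) e) F
      = algebraMap (Polynomial A') (FractionRing (Polynomial A')) Polynomial.X * h ^ 2)
    (h0 : aeval (fun j => algebraMap A' (FractionRing A') ((c j).coeff 0)
        / algebraMap A' (FractionRing A') (e.coeff 0)) F = 0)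
    (h1 : ∀ i, aeval (fun j => algebraMap A' (FractionRing A') ((c j).coeff 0)
        / algebraMap A' (FractionRing A') (e.coeff 0)) (pderiv i F) ≠ 0)
    (X : Scheme.{u}) (s : X ⟶ Spec (CommRingCat.of K)) [IrreducibleSpace X]
    (hX : BirationalOver K X
      (Spec (CommRingCat.of (AdjoinRoot
        (Polynomial.X ^ 2 - Polynomial.C F : Polynomial (MvPolynomial (Fin n) A)))))
      s
      (Spec.map (CommRingCat.ofHom (algebraMap K (AdjoinRoot
        (Polynomial.X ^ 2 - Polynomial.C F : Polynomial (MvPolynomial (Fin n) A))))))) :
    PotentiallyDense K X s :=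
  base_main K A A' hinj hA' n F hdeg c e he h hh hcurve h0 h1 X s hX

end Pool.Agent.Results.MP_9410e4_ag.DenseBaseFamily
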