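import Pool.Agent.Helper37.PD.Family

/-!
# Potential density of families of double covers of arbitrary Kodaira dimension

Let `F(t, x)` be a polynomial in `m + n` variables over a number field `K`, of degree at most four
in each of the variables `x_1, ..., x_n` and of arbitrary degree in `t_1, ..., t_m`.  Suppose that
over the algebraic closure there are polynomials `τ_1, ..., τ_m` (algebraically independent),
`c_1, ..., c_n`, `G` and `H ≠ 0` in `s_1, ..., s_r` with `F(τ(s), c(s)) = G(s) H(s) ^ 2`, where `G`
has degree at most four in each `s_i`, and a point `s0` with `G(s0) = 0` at which no partial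
derivative of `G` vanishes and such that no partial derivative of `F` in the directions `x_j`
vanishes at `(τ(s0), c(s0))`.  Then every irreducible scheme over `K` that is birational over `K`
to the double cover `w ^ 2 = F(t, x)` is potentially dense.
-/

namespace Pool.Agent.Results.MP_9410e4_ag.MultisectionFamily

open AlgebraicGeometry CategoryTheory MvPolynomial Pool.Agent.Helper15 Pool.Agent.Helper37.PD

universe u

theorem result (K : Type u) [Field K] [NumberField K] (m n r : ℕ) (hr : 0 < r)
    (F : MvPolynomial (Fin m ⊕ Fin n) K) (hdeg : ∀ j : Fin n, F.degreeOf (Sum.inr j) ≤ 4)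
    (τ : Fin m → MvPolynomial (Fin r) (AlgebraicClosure K))
    (c : Fin n → MvPolynomial (Fin r) (AlgebraicClosure K))
    (G H : MvPolynomial (Fin r) (AlgebraicClosure K))
    (hF : aeval (Sum.elim τ c) F = G * H ^ 2) (hG : ∀ i, G.degreeOf i ≤ 4) (hH : H ≠ 0)
    (hτ : AlgebraicIndependent (AlgebraicClosure K) τ)
    (s0 : Fin r → AlgebraicClosure K) (h0 : eval s0 G = 0) (h1 : ∀ i, eval s0 (pderiv i G) ≠ 0)
    (h2 : ∀ j : Fin n, aeval (Sum.elim (fun a => eval s0 (τ a)) (fun j => eval s0 (c j)))
      (pderiv (Sum.inr j) F) ≠ 0)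
    (X : Scheme.{u}) (s : X ⟶ Spec (CommRingCat.of K)) [IrreducibleSpace X]
    (hX : BirationalOver K X
      (Spec (CommRingCat.of (AdjoinRoot
        (Polynomial.X ^ 2 - Polynomial.C F : Polynomial (MvPolynomial (Fin m ⊕ Fin n) K)))))
      s
      (Spec.map (CommRingCat.ofHom (algebraMap K (AdjoinRoot
        (Polynomial.X ^ 2 - Polynomial.C F :
          Polynomial (MvPolynomial (Fin m ⊕ Fin n) K))))))) :
    PotentiallyDense K X s := by
  have : Nonempty (Fin r) := ⟨⟨0, hr⟩⟩
  obtain ⟨L, hfin, hd⟩ := family_numberField K F hdeg τ c G H hF hG hH hτ s0 h0 h1 h2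
  refine PotentiallyDense.of_birational K X _ s _ hX ⟨L, inferInstance, inferInstance, hfin, ?_⟩
  have : CharZero L := charZero_of_injective_algebraMap (algebraMap K L).injective
  exact dense_ratPts_spec K L _ (fun g hg => cover_separated F hd g hg)

end Pool.Agent.Results.MP_9410e4_ag.MultisectionFamily
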